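import Mathlib

/-!
# MP_bada7b_pr: the modified log-Sobolev constant is not controlled by the entropy hitting time

For every `Cent > 0` and every `C` there is a finite irreducible reversible Markov chain with
`1 / c_MLS > C * rho_ent` (and also `1 / c_MLS > C * tau_ent`).
The chain is a birth and death chain on `{0, …, m + 1}` with equal conductances `a / (2 m)` on all
edges and stationary measure `a, a / m, …, a / m, 1 - 2 a`, where `a = exp (-m)`.
-/

set_option autoImplicit false

namespace Pool.Agent.Results.MP_bada7b_pr.NoMLSHittingBound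

open Finset Matrix

section Defs

variable {Ω : Type} [Fintype Ω] [DecidableEq Ω]

/-- `P` is an irreducible transition matrix on the finite set `Ω`, reversible with respect to the
probability vector `π` (which is then its stationary distribution). -/
structure IsReversibleChain (P : Matrix Ω Ω ℝ) (π : Ω → ℝ) : Prop where
  nonneg : ∀ x y, 0 ≤ P x y
  row_sum : ∀ x, ∑ y, P x y = 1
  irreducible : ∀ x y, Relation.ReflTransGen (fun u v => 0 < P u v) x y
  pi_nonneg : ∀ x, 0 ≤ π x
  pi_sum : ∑ x, π x = 1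
  detailed_balance : ∀ x y, π x * P x y = π y * P y x

/-- The Dirichlet form `⟨(I - P) f, g⟩_π`. -/
def dirichlet (P : Matrix Ω Ω ℝ) (π : Ω → ℝ) (f g : Ω → ℝ) : ℝ :=
  ∑ x, π x * (((1 : Matrix Ω Ω ℝ) - P) *ᵥ f) x * g x

/-- The entropy `E_π[f log f] - E_π[f] log E_π[f]`. -/
noncomputable def ent (π : Ω → ℝ) (f : Ω → ℝ) : ℝ :=
  ∑ x, π x * (f x * Real.log (f x)) - (∑ x, π x * f x) * Real.log (∑ x, π x * f x)

/-- The modified log-Sobolev constant: the infimum of `E(e^f, f) / Ent_π(e^f)` over non-constant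
`f`. -/
noncomputable def cMLS (P : Matrix Ω Ω ℝ) (π : Ω → ℝ) : ℝ :=
  sInf {r | ∃ f : Ω → ℝ, (∃ x y, f x ≠ f y) ∧
    r = dirichlet P π (fun x => Real.exp (f x)) f / ent π (fun x => Real.exp (f x))}

/-- `stay P A n x` is the probability that the discrete time chain `Y` with transition matrix `P`
started from `x` has `Y_0, …, Y_n ∈ A`. -/
def stay (P : Matrix Ω Ω ℝ) (A : Finset Ω) : ℕ → Ω → ℝ
  | 0, x => if x ∈ A then 1 else 0
  | n + 1, x => if x ∈ A then ∑ y, P x y * stay P A n y else 0

/-- `surv P A t x` is `Pr_x[T_{A^c} > t]` for the continuous time chain with semigroup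
`exp (-t (I - P))`: this chain makes its `P`-steps at the times of a Poisson process of rate one, so
that its path up to time `t` is `Y_0, …, Y_N` with `N` a Poisson variable of mean `t`. -/
noncomputable def surv (P : Matrix Ω Ω ℝ) (A : Finset Ω) (t : ℝ) (x : Ω) : ℝ :=
  ∑' n : ℕ, Real.exp (-t) * t ^ n / n.factorial * stay P A n x

/-- `A` is connected: from each of its points each of its points can be reached inside `A`, that is
`Pr_a[T_b < T_{A^c}] > 0` for all `a, b ∈ A`. -/
def IsConn (P : Matrix Ω Ω ℝ) (A : Finset Ω) : Prop :=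
  ∀ a ∈ A, ∀ b ∈ A, Relation.ReflTransGen (fun u v => u ∈ A ∧ v ∈ A ∧ 0 < P u v) a b

/-- The entropy hitting time parameter `ρ_{ent,x}` with constant `Cent`. -/
noncomputable def rhoEntAt (Cent : ℝ) (P : Matrix Ω Ω ℝ) (π : Ω → ℝ) (x : Ω) : ℝ :=
  sInf {t | 0 ≤ t ∧ ∀ A : Finset Ω, A.Nonempty → IsConn P A → ∑ y ∈ A, π y ≤ 1 / 2 →
    surv P A t x ≤ min (Cent / |Real.log (∑ y ∈ A, π y)|) (99 / 100)}

/-- The entropy hitting time parameter `ρ_ent = max_x ρ_{ent,x}` with constant `Cent`. -/
noncomputable def rhoEnt (Cent : ℝ) (P : Matrix Ω Ω ℝ) (π : Ω → ℝ) : ℝ :=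
  ⨆ x, rhoEntAt Cent P π x

/-- The same parameter with `Con_{1/2}` replaced by all sets `A` with `π(A) ≤ 1/2`. -/
noncomputable def rhoEntAllAt (Cent : ℝ) (P : Matrix Ω Ω ℝ) (π : Ω → ℝ) (x : Ω) : ℝ :=
  sInf {t | 0 ≤ t ∧ ∀ A : Finset Ω, A.Nonempty → ∑ y ∈ A, π y ≤ 1 / 2 →
    surv P A t x ≤ min (Cent / |Real.log (∑ y ∈ A, π y)|) (99 / 100)}

/-- The maximum over `x` of `rhoEntAllAt`. -/
noncomputable def rhoEntAll (Cent : ℝ) (P : Matrix Ω Ω ℝ) (π : Ω → ℝ) : ℝ :=
  ⨆ x, rhoEntAllAt Cent P π x

/-- The continuous time semigroup `H_t = exp (-t (I - P))`. -/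
noncomputable def heat (P : Matrix Ω Ω ℝ) (t : ℝ) : Matrix Ω Ω ℝ :=
  NormedSpace.exp ((-t) • ((1 : Matrix Ω Ω ℝ) - P))

/-- The entropy mixing time `τ_ent = max_x inf {t : D(H_t(x, ·) ‖ π) ≤ 1/2}`. -/
noncomputable def tauEnt (P : Matrix Ω Ω ℝ) (π : Ω → ℝ) : ℝ :=
  ⨆ x, sInf {t | 0 ≤ t ∧ ∑ y, heat P t x y * Real.log (heat P t x y / π y) ≤ 1 / 2}

lemma dirichlet_eq {P : Matrix Ω Ω ℝ} {π : Ω → ℝ} (h : IsReversibleChain P π) (f g : Ω → ℝ) :
    dirichlet P π f g
      = 1 / 2 * ∑ x, ∑ y, π x * P x y * ((f x - f y) * (g x - g y)) := by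
  have h1 : dirichlet P π f g = ∑ x, ∑ y, π x * P x y * ((f x - f y) * g x) := by
    unfold dirichlet
    refine Finset.sum_congr rfl fun x _ => ?_
    have : (((1 : Matrix Ω Ω ℝ) - P) *ᵥ f) x = ∑ y, P x y * (f x - f y) := by
      rw [Matrix.sub_mulVec, Matrix.one_mulVec, Pi.sub_apply]
      simp only [mul_sub, Finset.sum_sub_distrib, ← Finset.sum_mul, h.row_sum, one_mul]
      rfl
    rw [this, Finset.mul_sum, Finset.sum_mul]
    refine Finset.sum_congr rfl fun y _ => by ring
  have h2 : dirichlet P π f g = ∑ x, ∑ y, π x * P x y * ((f y - f x) * g y) := by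
    rw [h1, Finset.sum_comm]
    refine Finset.sum_congr rfl fun x _ => Finset.sum_congr rfl fun y _ => ?_
    rw [h.detailed_balance]
  have h3 : ∑ x, ∑ y, π x * P x y * ((f x - f y) * (g x - g y))
      = ∑ x, ∑ y, π x * P x y * ((f x - f y) * g x)
        + ∑ x, ∑ y, π x * P x y * ((f y - f x) * g y) := by
    rw [← Finset.sum_add_distrib]
    refine Finset.sum_congr rfl fun x _ => ?_
    rw [← Finset.sum_add_distrib]
    refine Finset.sum_congr rfl fun y _ => by ring
  rw [h3, ← h1, ← h2]
  ring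

set_option backward.isDefEq.respectTransparency false in
open scoped Matrix.Norms.Operator in
lemma exp_entry (A : Matrix Ω Ω ℝ) (x y : Ω) :
    HasSum (fun n : ℕ => (n.factorial : ℝ)⁻¹ * (A ^ n) x y) (NormedSpace.exp A x y) := by
  have h := NormedSpace.exp_series_hasSum_exp' (𝕂 := ℝ) A
  have h2 := h.map (Matrix.entryAddMonoidHom ℝ x y) (by
    exact (continuous_apply_apply x y))
  simpa [Function.comp_def] using h2

lemma heat_hasSum (P : Matrix Ω Ω ℝ) (t : ℝ) (x y : Ω) :
    HasSum (fun n : ℕ => Real.exp (-t) * t ^ n / n.factorial * (P ^ n) x y) (heat P t x y) := by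
  have h1 : heat P t = Real.exp (-t) • NormedSpace.exp (t • P) := by
    unfold heat
    have h2 : (-t) • ((1 : Matrix Ω Ω ℝ) - P) = (diagonal (fun _ => -t)) + t • P := by
      have h3 : (diagonal (fun _ => -t) : Matrix Ω Ω ℝ) = (-t) • (1 : Matrix Ω Ω ℝ) := by
        rw [← Matrix.smul_one_eq_diagonal]
      rw [h3, smul_sub]
      simp [sub_eq_add_neg]
    rw [h2, Matrix.exp_add_of_commute, Matrix.exp_diagonal]
    · have h4 : (NormedSpace.exp (fun _ : Ω => -t)) = fun _ => Real.exp (-t) := by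
        rw [Pi.exp_def]
        funext i
        rw [Real.exp_eq_exp_ℝ]
      rw [h4]
      ext i j
      simp [Matrix.diagonal_mul]
    · have h3 : (diagonal (fun _ => -t) : Matrix Ω Ω ℝ) = (-t) • (1 : Matrix Ω Ω ℝ) := by
        rw [← Matrix.smul_one_eq_diagonal]
      rw [h3]
      exact (Commute.one_left _).smul_left _
  rw [h1, Matrix.smul_apply, smul_eq_mul]
  have h5 := (exp_entry (t • P) x y).mul_left (Real.exp (-t))
  refine h5.congr_fun ?_
  intro n
  rw [smul_pow, Matrix.smul_apply, smul_eq_mul]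
  ring

/-- The generating function of the Poisson weights. -/
lemma poisson_hasSum (t q : ℝ) :
    HasSum (fun n : ℕ => Real.exp (-t) * t ^ n / n.factorial * q ^ n)
      (Real.exp (-(1 - q) * t)) := by
  have h := (NormedSpace.expSeries_div_hasSum_exp (t * q)).mul_left (Real.exp (-t))
  rw [← Real.exp_eq_exp_ℝ, ← Real.exp_add] at h
  have h1 : -t + t * q = -(1 - q) * t := by ring
  rw [h1] at h
  refine h.congr_fun ?_
  intro n
  rw [mul_pow]
  ring

end Defs

section Chain

/-- The mass `a = exp (-m)`. -/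
noncomputable def am (m : ℕ) : ℝ := Real.exp (-(m : ℝ))

/-- The stationary distribution. -/
noncomputable def wt (m : ℕ) (i : Fin (m + 2)) : ℝ :=
  if i.val = 0 then am m else if i.val = m + 1 then 1 - 2 * am m else am m / m

/-- The conductances. -/
noncomputable def cd (m : ℕ) (i j : Fin (m + 2)) : ℝ :=
  if i.val + 1 = j.val ∨ j.val + 1 = i.val then am m / (2 * m) else 0

/-- The transition matrix. -/
noncomputable def K (m : ℕ) : Matrix (Fin (m + 2)) (Fin (m + 2)) ℝ :=
  fun i j => if i = j then 1 - (∑ k, cd m i k) / wt m i else cd m i j / wt m i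

lemma am_pos (m : ℕ) : 0 < am m := Real.exp_pos _

lemma am_le {m : ℕ} (hm : 8 ≤ m) : am m ≤ 1 / 20 := by
  have h1 : (8 : ℝ) ≤ m := by exact_mod_cast hm
  have h2 : am m ≤ Real.exp (-8) := Real.exp_le_exp.2 (by linarith)
  have h3 : (20 : ℝ) ≤ Real.exp 8 := by
    have h4 : (9 / 2 : ℝ) ≤ Real.exp 4 := by
      have := Real.add_one_le_exp (4 : ℝ)
      linarith
    have h5 : Real.exp 8 = Real.exp 4 * Real.exp 4 := by rw [← Real.exp_add]; norm_num
    rw [h5]; nlinarith
  have h4 : Real.exp (-8) ≤ 1 / 20 := by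
    rw [Real.exp_neg, one_div]
    exact inv_anti₀ (by norm_num) h3
  linarith

lemma wt_ge {m : ℕ} (hm : 8 ≤ m) (i : Fin (m + 2)) : am m / m ≤ wt m i := by
  have h1 : (8 : ℝ) ≤ m := by exact_mod_cast hm
  have h2 := am_le hm
  have h3 := am_pos m
  have h4 : am m / m ≤ am m := by
    rw [div_le_iff₀ (by linarith)]; nlinarith
  unfold wt
  split_ifs
  · exact h4
  · linarith
  · exact le_rfl

lemma q_pos {m : ℕ} (hm : 8 ≤ m) : 0 < am m / m := by
  have h1 : (8 : ℝ) ≤ m := by exact_mod_cast hm
  exact div_pos (am_pos m) (by linarith)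

lemma wt_pos {m : ℕ} (hm : 8 ≤ m) (i : Fin (m + 2)) : 0 < wt m i :=
  lt_of_lt_of_le (q_pos hm) (wt_ge hm i)

lemma sum_fin_ite (n c : ℕ) (F : Fin n → ℝ) :
    ∑ k : Fin n, (if c = k.val then F k else 0) = if h : c < n then F ⟨c, h⟩ else 0 := by
  split_ifs with h
  · rw [Finset.sum_eq_single ⟨c, h⟩]
    · simp
    · intro b _ hb
      rw [if_neg]
      intro h'
      exact hb (Fin.ext h'.symm)
    · simp
  · apply Finset.sum_eq_zero
    intro k _
    rw [if_neg]
    intro h'
    exact h (h' ▸ k.2)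

lemma cd_mul (m : ℕ) (i j : Fin (m + 2)) (F : ℝ) :
    cd m i j * F = am m / (2 * m) * (if i.val + 1 = j.val then F else 0)
      + am m / (2 * m) * (if j.val + 1 = i.val then F else 0) := by
  unfold cd
  by_cases h1 : i.val + 1 = j.val
  · have h2 : ¬ (j.val + 1 = i.val) := by omega
    simp [h1, h2]
  · by_cases h2 : j.val + 1 = i.val
    · simp [h1, h2]
    · simp [h1, h2]

lemma cd_nonneg (m : ℕ) (i j : Fin (m + 2)) : 0 ≤ cd m i j := by
  unfold cd
  split_ifs
  · have := am_pos m
    positivity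
  · exact le_rfl

lemma cd_symm (m : ℕ) (i j : Fin (m + 2)) : cd m i j = cd m j i := by
  unfold cd
  simp only [or_comm]

lemma cd_self (m : ℕ) (i : Fin (m + 2)) : cd m i i = 0 := by
  unfold cd
  simp

lemma sum_cd_le (m : ℕ) (i : Fin (m + 2)) : ∑ k, cd m i k ≤ am m / m := by
  have h0 := am_pos m
  have hq : 0 ≤ am m / (2 * m) := by positivity
  have h1 : ∀ k, cd m i k = am m / (2 * m) * (if i.val + 1 = k.val then (1 : ℝ) else 0)
      + am m / (2 * m) * (if k.val + 1 = i.val then (1 : ℝ) else 0) := fun k => by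
    rw [← cd_mul, mul_one]
  simp only [h1, Finset.sum_add_distrib, ← Finset.mul_sum]
  rw [sum_fin_ite]
  have h2 : ∑ k : Fin (m + 2), (if k.val + 1 = i.val then (1 : ℝ) else 0)
      = ∑ k : Fin (m + 2), (if 1 ≤ i.val ∧ i.val - 1 = k.val then (1 : ℝ) else 0) := by
    refine Finset.sum_congr rfl fun k _ => ?_
    congr 1
    exact propext ⟨fun h => by omega, fun h => by omega⟩
  have h3 : ∑ k : Fin (m + 2), (if k.val + 1 = i.val then (1 : ℝ) else 0) ≤ 1 := by
    rw [h2]
    calc ∑ k : Fin (m + 2), (if 1 ≤ i.val ∧ i.val - 1 = k.val then (1 : ℝ) else 0)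
        ≤ ∑ k : Fin (m + 2), (if i.val - 1 = k.val then (1 : ℝ) else 0) := by
          refine Finset.sum_le_sum fun k _ => ?_
          split_ifs with h4 h5 h5
          · exact le_rfl
          · exact absurd h4.2 h5
          · norm_num
          · exact le_rfl
      _ ≤ 1 := by
          rw [sum_fin_ite]
          split_ifs
          · exact le_rfl
          · norm_num
  have h4 : (if h : i.val + 1 < m + 2 then (1 : ℝ) else 0) ≤ 1 := by
    split_ifs
    · exact le_rfl
    · norm_num
  have h5 : am m / m = am m / (2 * m) * 1 + am m / (2 * m) * 1 := by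
    by_cases hm : (m : ℝ) = 0
    · simp [hm]
    · field_simp
      norm_num
  rw [h5]
  gcongr

lemma wt_sum {m : ℕ} (hm : 8 ≤ m) : ∑ i, wt m i = 1 := by
  have hm0 : (m : ℝ) ≠ 0 := by
    have h1 : (8 : ℝ) ≤ m := by exact_mod_cast hm
    linarith
  rw [Fin.sum_univ_castSucc, Fin.sum_univ_succ]
  have h1 : wt m (Fin.castSucc 0) = am m := by simp [wt]
  have h2 : wt m (Fin.last (m + 1)) = 1 - 2 * am m := by simp [wt]
  have h3 : ∀ i : Fin m, wt m (Fin.castSucc i.succ) = am m / m := by
    intro i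
    have : i.val ≠ m := by have := i.2; omega
    simp [wt, this]
  rw [h1, h2]
  simp only [h3, Finset.sum_const, Finset.card_univ, Fintype.card_fin, nsmul_eq_mul]
  field_simp
  ring

lemma K_nonneg {m : ℕ} (hm : 8 ≤ m) (i j : Fin (m + 2)) : 0 ≤ K m i j := by
  unfold K
  split_ifs
  · rw [sub_nonneg, div_le_one (wt_pos hm i)]
    exact (sum_cd_le m i).trans (wt_ge hm i)
  · exact div_nonneg (cd_nonneg m i j) (wt_pos hm i).le

lemma sum_K_mul {m : ℕ} (i : Fin (m + 2)) (w : Fin (m + 2) → ℝ) :
    ∑ j, K m i j * w j = w i + (∑ j, cd m i j * (w j - w i)) / wt m i := by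
  have h1 : ∀ j, K m i j * w j
      = (if i = j then (1 - (∑ k, cd m i k) / wt m i) * w i else 0)
        + cd m i j / wt m i * w j := by
    intro j
    unfold K
    split_ifs with h
    · subst h
      rw [cd_self]; ring
    · ring
  simp only [h1, Finset.sum_add_distrib, Finset.sum_ite_eq, Finset.mem_univ, if_true]
  simp only [mul_sub, Finset.sum_sub_distrib, ← Finset.sum_mul, sub_div, Finset.sum_div]
  have h2 : ∑ j, cd m i j / wt m i * w j = ∑ j, cd m i j * w j / wt m i := by
    refine Finset.sum_congr rfl fun j _ => by ring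
  rw [h2, ← Finset.sum_div, ← Finset.sum_div]
  ring

lemma isRev {m : ℕ} (hm : 8 ≤ m) : IsReversibleChain (K m) (wt m) where
  nonneg := K_nonneg hm
  row_sum := fun x => by
    have := sum_K_mul x (fun _ => (1 : ℝ))
    simpa using this
  irreducible := by
    have hup : ∀ i j : Fin (m + 2), i.val + 1 = j.val → 0 < K m i j ∧ 0 < K m j i := by
      intro i j h
      have hij : i ≠ j := by intro h'; subst h'; omega
      have hc : 0 < cd m i j := by
        unfold cd
        rw [if_pos (Or.inl h)]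
        have h1 : (8 : ℝ) ≤ m := by exact_mod_cast hm
        have := am_pos m
        positivity
      constructor
      · unfold K
        rw [if_neg hij]
        exact div_pos hc (wt_pos hm i)
      · unfold K
        rw [if_neg hij.symm, cd_symm]
        exact div_pos hc (wt_pos hm j)
    have key : ∀ n : ℕ, ∀ i : Fin (m + 2), i.val = n →
        Relation.ReflTransGen (fun u v => 0 < K m u v) 0 i ∧
        Relation.ReflTransGen (fun u v => 0 < K m u v) i 0 := by
      intro n
      induction n with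
      | zero =>
        intro i hi
        have : i = 0 := Fin.ext hi
        subst this
        exact ⟨Relation.ReflTransGen.refl, Relation.ReflTransGen.refl⟩
      | succ n ih =>
        intro i hi
        have hn : n < m + 2 := by have := i.2; omega
        obtain ⟨h1, h2⟩ := ih ⟨n, hn⟩ rfl
        obtain ⟨h3, h4⟩ := hup ⟨n, hn⟩ i (by simp [hi])
        exact ⟨h1.tail h3, Relation.ReflTransGen.head h4 h2⟩
    intro x y
    exact (key x.val x rfl).2.trans (key y.val y rfl).1
  pi_nonneg := fun x => (wt_pos hm x).le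
  pi_sum := wt_sum hm
  detailed_balance := by
    intro x y
    by_cases h : x = y
    · subst h; rfl
    · unfold K
      rw [if_neg h, if_neg (Ne.symm h), mul_div_cancel₀ _ (wt_pos hm x).ne',
        mul_div_cancel₀ _ (wt_pos hm y).ne', cd_symm]

/-- The Dirichlet form is a sum over the edges of the path. -/
lemma dirichlet_path {m : ℕ} (hm : 8 ≤ m) (f g : Fin (m + 2) → ℝ) :
    dirichlet (K m) (wt m) f g
      = am m / (2 * m) * ∑ i : Fin (m + 1),
        (f i.castSucc - f i.succ) * (g i.castSucc - g i.succ) := by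
  rw [dirichlet_eq (isRev hm)]
  have h1 : ∀ x y, wt m x * K m x y * ((f x - f y) * (g x - g y))
      = cd m x y * ((f x - f y) * (g x - g y)) := by
    intro x y
    by_cases h : x = y
    · subst h; simp
    · unfold K
      rw [if_neg h, mul_div_cancel₀ _ (wt_pos hm x).ne']
  simp only [h1, cd_mul, Finset.sum_add_distrib, ← Finset.mul_sum]
  have h2 : ∑ x : Fin (m + 2), ∑ y : Fin (m + 2),
      (if x.val + 1 = y.val then (f x - f y) * (g x - g y) else 0)
      = ∑ i : Fin (m + 1), (f i.castSucc - f i.succ) * (g i.castSucc - g i.succ) := by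
    rw [Fin.sum_univ_castSucc]
    have h3 : ∑ y : Fin (m + 2), (if (Fin.last (m + 1)).val + 1 = y.val then
        (f (Fin.last (m + 1)) - f y) * (g (Fin.last (m + 1)) - g y) else 0) = 0 := by
      rw [sum_fin_ite, dif_neg]
      simp
    rw [h3, add_zero]
    refine Finset.sum_congr rfl fun i _ => ?_
    rw [sum_fin_ite, dif_pos (by have := i.2; simp only [Fin.val_castSucc]; omega)]
    rfl
  have h4 : ∑ x : Fin (m + 2), ∑ y : Fin (m + 2),
      (if y.val + 1 = x.val then (f x - f y) * (g x - g y) else 0)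
      = ∑ i : Fin (m + 1), (f i.castSucc - f i.succ) * (g i.castSucc - g i.succ) := by
    rw [Finset.sum_comm, ← h2]
    refine Finset.sum_congr rfl fun x _ => Finset.sum_congr rfl fun y _ => ?_
    split_ifs
    · ring
    · rfl
  rw [h2, h4]
  ring

/-- A lower bound for the product of differences. -/
lemma mul_log_ge {x y S : ℝ} (hx : 0 < x) (hy : 0 < y) (hxS : x ≤ S) (hyS : y ≤ S) :
    (x - y) ^ 2 / S ≤ (x - y) * (Real.log x - Real.log y) := by
  have key : ∀ u v : ℝ, 0 < v → v ≤ u → u ≤ S →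
      (u - v) ^ 2 / S ≤ (u - v) * (Real.log u - Real.log v) := by
    intro u v hv hvu huS
    have hu : 0 < u := lt_of_lt_of_le hv hvu
    have h1 : (u - v) / S ≤ Real.log u - Real.log v := by
      have h2 : Real.log (v / u) ≤ v / u - 1 := Real.log_le_sub_one_of_pos (div_pos hv hu)
      rw [Real.log_div hv.ne' hu.ne'] at h2
      have h3 : (u - v) / S ≤ (u - v) / u :=
        div_le_div_of_nonneg_left (by linarith) hu huS
      have h4 : (u - v) / u = 1 - v / u := by field_simp
      linarith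
    have h5 : (u - v) ^ 2 / S = (u - v) * ((u - v) / S) := by ring
    rw [h5]
    exact mul_le_mul_of_nonneg_left h1 (by linarith)
  rcases le_total y x with h | h
  · exact key x y hy h hxS
  · have := key y x hx h hyS
    have h1 : (x - y) ^ 2 / S = (y - x) ^ 2 / S := by ring
    rw [h1]
    linarith

/-- An upper bound for the product of differences. -/
lemma mul_log_le {x y : ℝ} (hy : 0 < y) (hxy : y ≤ x) :
    (x - y) * (Real.log x - Real.log y) ≤ (x - y) ^ 2 / y := by
  have hx : 0 < x := lt_of_lt_of_le hy hxy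
  have h1 : Real.log (x / y) ≤ x / y - 1 := Real.log_le_sub_one_of_pos (div_pos hx hy)
  rw [Real.log_div hx.ne' hy.ne'] at h1
  have h2 : x / y - 1 = (x - y) / y := by field_simp
  have h3 : (x - y) ^ 2 / y = (x - y) * ((x - y) / y) := by ring
  rw [h3]
  exact mul_le_mul_of_nonneg_left (by linarith) (by linarith)

lemma ent_eq {m : ℕ} (g : Fin (m + 2) → ℝ) :
    ent (wt m) g
      = ∑ x, wt m x * (g x * (Real.log (g x) - Real.log (∑ y, wt m y * g y))) := by
  unfold ent
  rw [Finset.sum_mul, ← Finset.sum_sub_distrib]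
  refine Finset.sum_congr rfl fun x _ => by ring

lemma mean_pos {m : ℕ} (hm : 8 ≤ m) (g : Fin (m + 2) → ℝ) (hg : ∀ x, 0 < g x) :
    0 < ∑ y, wt m y * g y :=
  Finset.sum_pos (fun x _ => mul_pos (wt_pos hm x) (hg x)) Finset.univ_nonempty

/-- The entropy of a non-constant positive function is positive. -/
lemma ent_pos {m : ℕ} (hm : 8 ≤ m) (g : Fin (m + 2) → ℝ) (hg : ∀ x, 0 < g x)
    (hne : ∃ x y, g x ≠ g y) : 0 < ent (wt m) g := by
  set S := ∑ y, wt m y * g y with hS
  have hS0 : 0 < S := mean_pos hm g hg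
  have hex : ∃ x, g x ≠ S := by
    by_contra hcon
    push Not at hcon
    obtain ⟨x, y, hxy⟩ := hne
    exact hxy ((hcon x).trans (hcon y).symm)
  have h1 : ∀ x, wt m x * (g x - S) ≤ wt m x * (g x * (Real.log (g x) - Real.log S)) := by
    intro x
    refine mul_le_mul_of_nonneg_left ?_ (wt_pos hm x).le
    have h2 : Real.log (S / g x) ≤ S / g x - 1 := Real.log_le_sub_one_of_pos (div_pos hS0 (hg x))
    rw [Real.log_div hS0.ne' (hg x).ne'] at h2
    have h3 : g x - S = g x * (1 - S / g x) := by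
      have := (hg x).ne'
      field_simp
    rw [h3]
    exact mul_le_mul_of_nonneg_left (by linarith) (hg x).le
  obtain ⟨x0, hx0⟩ := hex
  have h2 : wt m x0 * (g x0 - S) < wt m x0 * (g x0 * (Real.log (g x0) - Real.log S)) := by
    refine mul_lt_mul_of_pos_left ?_ (wt_pos hm x0)
    have h2 : Real.log (S / g x0) < S / g x0 - 1 :=
      Real.log_lt_sub_one_of_pos (div_pos hS0 (hg x0)) (by
        intro h
        rw [div_eq_one_iff_eq (hg x0).ne'] at h
        exact hx0 h.symm)
    rw [Real.log_div hS0.ne' (hg x0).ne'] at h2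
    have h3 : g x0 - S = g x0 * (1 - S / g x0) := by
      have := (hg x0).ne'
      field_simp
    rw [h3]
    exact mul_lt_mul_of_pos_left (by linarith) (hg x0)
  have h3 : ∑ x, wt m x * (g x - S) = 0 := by
    simp only [mul_sub, Finset.sum_sub_distrib, ← Finset.sum_mul, wt_sum hm, one_mul]
    rw [← hS, sub_self]
  rw [ent_eq, ← hS, ← h3]
  exact Finset.sum_lt_sum (fun x _ => h1 x) ⟨x0, Finset.mem_univ _, h2⟩

/-- Telescoping along the path. -/
lemma tele {m : ℕ} (g : Fin (m + 2) → ℝ) (x : Fin (m + 2)) :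
    |g x - g 0| ≤ ∑ i : Fin (m + 1), |g i.castSucc - g i.succ| := by
  have key : ∀ n : ℕ, ∀ h : n < m + 2,
      |g ⟨n, h⟩ - g 0| ≤ ∑ i : Fin (m + 1), (if i.val < n then |g i.castSucc - g i.succ| else 0) := by
    intro n
    induction n with
    | zero =>
      intro h
      have : (⟨0, h⟩ : Fin (m + 2)) = 0 := rfl
      rw [this]
      simp
    | succ n ih =>
      intro h
      have hn : n < m + 2 := by omega
      have hn1 : n < m + 1 := by omega
      have h1 := ih hn
      have h2 : g ⟨n + 1, h⟩ = g (Fin.succ ⟨n, hn1⟩) := rfl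
      have h3 : g ⟨n, hn⟩ = g (Fin.castSucc ⟨n, hn1⟩) := rfl
      have h4 : |g ⟨n + 1, h⟩ - g 0| ≤ |g ⟨n, hn⟩ - g 0|
          + |g (Fin.castSucc ⟨n, hn1⟩) - g (Fin.succ ⟨n, hn1⟩)| := by
        rw [← h2, ← h3, abs_sub_comm (g ⟨n, hn⟩) (g ⟨n + 1, h⟩)]
        have := abs_add_le (g ⟨n, hn⟩ - g 0) (g ⟨n + 1, h⟩ - g ⟨n, hn⟩)
        have h5 : g ⟨n, hn⟩ - g 0 + (g ⟨n + 1, h⟩ - g ⟨n, hn⟩) = g ⟨n + 1, h⟩ - g 0 := by ring
        rw [h5] at this
        exact this
      have h5 : ∑ i : Fin (m + 1), (if i.val < n + 1 then |g i.castSucc - g i.succ| else 0)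
          = ∑ i : Fin (m + 1), (if i.val < n then |g i.castSucc - g i.succ| else 0)
            + |g (Fin.castSucc ⟨n, hn1⟩) - g (Fin.succ ⟨n, hn1⟩)| := by
        have h6 : |g (Fin.castSucc ⟨n, hn1⟩) - g (Fin.succ ⟨n, hn1⟩)|
            = ∑ i : Fin (m + 1), (if n = i.val then |g i.castSucc - g i.succ| else 0) := by
          rw [sum_fin_ite, dif_pos hn1]
        rw [h6, ← Finset.sum_add_distrib]
        refine Finset.sum_congr rfl fun i _ => ?_
        rcases lt_trichotomy i.val n with h7 | h7 | h7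
        · rw [if_pos (by omega), if_pos h7, if_neg (by omega), add_zero]
        · rw [if_pos (by omega), if_neg (by omega), if_pos h7.symm, zero_add]
        · rw [if_neg (by omega), if_neg (by omega), if_neg (by omega), add_zero]
      rw [h5]
      linarith
  refine (key x.val x.2).trans ?_
  refine Finset.sum_le_sum fun i _ => ?_
  split_ifs
  · exact le_rfl
  · exact abs_nonneg _

/-- A (very crude) positive lower bound for the modified log-Sobolev constant of the chain. -/
lemma mls_lower {m : ℕ} (hm : 8 ≤ m) (g : Fin (m + 2) → ℝ) (hg : ∀ x, 0 < g x) :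
    am m / (2 * m) * (am m / m) / (m + 1) * ent (wt m) g
      ≤ dirichlet (K m) (wt m) g (fun x => Real.log (g x)) := by
  have hm1 : (8 : ℝ) ≤ m := by exact_mod_cast hm
  have ha := am_pos m
  set S := ∑ y, wt m y * g y with hS
  have hS0 : 0 < S := mean_pos hm g hg
  set D := ∑ i : Fin (m + 1), (g i.castSucc - g i.succ) ^ 2 with hD
  have hgS : ∀ x, am m / m * g x ≤ S := by
    intro x
    calc am m / m * g x ≤ wt m x * g x := mul_le_mul_of_nonneg_right (wt_ge hm x) (hg x).le
      _ ≤ S := Finset.single_le_sum (f := fun y => wt m y * g y)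
          (fun y _ => (mul_pos (wt_pos hm y) (hg y)).le) (Finset.mem_univ x)
  have hgS' : ∀ x, g x ≤ S / (am m / m) := by
    intro x
    rw [le_div_iff₀ (q_pos hm), mul_comm]
    exact hgS x
  -- lower bound for the Dirichlet form
  have h1 : am m / (2 * m) * (am m / m) * (D / S)
      ≤ dirichlet (K m) (wt m) g (fun x => Real.log (g x)) := by
    rw [dirichlet_path hm, mul_assoc]
    refine mul_le_mul_of_nonneg_left ?_ (by positivity)
    rw [hD, Finset.sum_div, Finset.mul_sum]
    refine Finset.sum_le_sum fun i _ => ?_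
    have := mul_log_ge (hg i.castSucc) (hg i.succ) (hgS' _) (hgS' _)
    refine le_trans (le_of_eq ?_) this
    have hq := (q_pos hm).ne'
    field_simp
  -- upper bound for the entropy
  have h2 : ent (wt m) g ≤ (m + 1) * D / S := by
    have h3 : ent (wt m) g ≤ (∑ x, wt m x * g x ^ 2 - S ^ 2) / S := by
      rw [ent_eq, ← hS]
      have h4 : (∑ x, wt m x * g x ^ 2 - S ^ 2) / S = ∑ x, wt m x * (g x * (g x / S - 1)) := by
        have h5 : ∑ x, wt m x * (g x * (g x / S - 1))
            = ∑ x, wt m x * g x ^ 2 / S - ∑ x, wt m x * g x := by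
          rw [← Finset.sum_sub_distrib]
          refine Finset.sum_congr rfl fun x _ => by ring
        rw [h5, ← hS, ← Finset.sum_div]
        field_simp
      rw [h4]
      refine Finset.sum_le_sum fun x _ => ?_
      refine mul_le_mul_of_nonneg_left ?_ (wt_pos hm x).le
      refine mul_le_mul_of_nonneg_left ?_ (hg x).le
      have h5 : Real.log (g x / S) ≤ g x / S - 1 := Real.log_le_sub_one_of_pos (div_pos (hg x) hS0)
      rwa [Real.log_div (hg x).ne' hS0.ne'] at h5
    have h4 : ∑ x, wt m x * g x ^ 2 - S ^ 2 ≤ ∑ x, wt m x * (g x - g 0) ^ 2 := by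
      have h5 : ∑ x, wt m x * (g x - g 0) ^ 2
          = ∑ x, wt m x * g x ^ 2 - 2 * g 0 * S + g 0 ^ 2 := by
        have h6 : ∑ x, wt m x * (g x - g 0) ^ 2
            = ∑ x, (wt m x * g x ^ 2 - 2 * g 0 * (wt m x * g x) + wt m x * g 0 ^ 2) :=
          Finset.sum_congr rfl fun x _ => by ring
        rw [h6, Finset.sum_add_distrib, Finset.sum_sub_distrib, ← Finset.mul_sum, ← hS,
          ← Finset.sum_mul, wt_sum hm, one_mul]
      rw [h5]
      nlinarith [sq_nonneg (g 0 - S)]
    have h5 : ∑ x, wt m x * (g x - g 0) ^ 2 ≤ (m + 1) * D := by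
      have h6 : ∀ x, (g x - g 0) ^ 2 ≤ (m + 1) * D := by
        intro x
        have h7 := tele g x
        have h8 : (∑ i : Fin (m + 1), |g i.castSucc - g i.succ|) ^ 2 ≤ (m + 1) * D := by
          have h9 := sq_sum_le_card_mul_sum_sq (s := (Finset.univ : Finset (Fin (m + 1))))
            (f := fun i => |g i.castSucc - g i.succ|)
          simp only [sq_abs, Finset.card_univ, Fintype.card_fin] at h9
          push_cast at h9
          exact h9
        calc (g x - g 0) ^ 2 = |g x - g 0| ^ 2 := (sq_abs _).symm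
          _ ≤ (∑ i : Fin (m + 1), |g i.castSucc - g i.succ|) ^ 2 :=
              pow_le_pow_left₀ (abs_nonneg _) h7 2
          _ ≤ _ := h8
      calc ∑ x, wt m x * (g x - g 0) ^ 2 ≤ ∑ x, wt m x * ((m + 1) * D) :=
            Finset.sum_le_sum fun x _ => mul_le_mul_of_nonneg_left (h6 x) (wt_pos hm x).le
        _ = (m + 1) * D := by rw [← Finset.sum_mul, wt_sum hm, one_mul]
    exact h3.trans (div_le_div_of_nonneg_right (h4.trans h5) hS0.le)
  refine le_trans ?_ h1
  calc am m / (2 * m) * (am m / m) / (m + 1) * ent (wt m) g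
      ≤ am m / (2 * m) * (am m / m) / (m + 1) * ((m + 1) * D / S) :=
        mul_le_mul_of_nonneg_left h2 (by positivity)
    _ = am m / (2 * m) * (am m / m) * (D / S) := by
        have : (m : ℝ) + 1 ≠ 0 := by positivity
        field_simp

/-- The test function. -/
noncomputable def gt (m : ℕ) (i : Fin (m + 2)) : ℝ :=
  1 + Real.exp m * (((m : ℝ) + 1 - i.val) / (m + 1)) ^ 2

lemma gt_ge (m : ℕ) (i : Fin (m + 2)) : 1 ≤ gt m i := by
  unfold gt
  have := Real.exp_pos (m : ℝ)
  have h : 0 ≤ Real.exp m * (((m : ℝ) + 1 - i.val) / (m + 1)) ^ 2 := by positivity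
  linarith

lemma gt_pos (m : ℕ) (i : Fin (m + 2)) : 0 < gt m i := lt_of_lt_of_le one_pos (gt_ge m i)

lemma am_mul (m : ℕ) : am m * Real.exp m = 1 := by
  unfold am
  rw [← Real.exp_add]
  simp

lemma gt_dirichlet {m : ℕ} (hm : 8 ≤ m) :
    dirichlet (K m) (wt m) (gt m) (fun x => Real.log (gt m x)) ≤ 5 / (m * (m + 1)) := by
  have hm1 : (8 : ℝ) ≤ m := by exact_mod_cast hm
  have hm0 : (0 : ℝ) < m := by linarith
  have ha := am_pos m
  set G := Real.exp (m : ℝ) with hG
  have hG0 : 0 < G := Real.exp_pos _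
  have hG1 : 1 ≤ G := Real.one_le_exp hm0.le
  have haG : am m * G = 1 := am_mul m
  rw [dirichlet_path hm]
  have hsum : ∑ i : Fin (m + 1), (gt m i.castSucc - gt m i.succ) *
      (Real.log (gt m i.castSucc) - Real.log (gt m i.succ)) ≤ 10 * G / (m + 1) := by
    rw [Fin.sum_univ_castSucc]
    have h1 : ∀ i : Fin m, (gt m i.castSucc.castSucc - gt m i.castSucc.succ) *
        (Real.log (gt m i.castSucc.castSucc) - Real.log (gt m i.castSucc.succ))
        ≤ 9 * G / (m + 1) ^ 2 := by
      intro i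
      have hi : (i.val : ℝ) + 1 ≤ m := by exact_mod_cast i.2
      obtain ⟨j, hj⟩ : ∃ j : ℝ, j = m - i.val := ⟨_, rfl⟩
      have hj1 : 1 ≤ j := by linarith
      have h2 : gt m i.castSucc.castSucc = 1 + G * ((j + 1) / (m + 1)) ^ 2 := by
        unfold gt
        rw [hj]
        simp only [Fin.val_castSucc]
        congr 4
        ring
      have h3 : gt m i.castSucc.succ = 1 + G * (j / (m + 1)) ^ 2 := by
        unfold gt
        rw [hj]
        simp only [Fin.val_succ, Fin.val_castSucc]
        push_cast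
        congr 4
        ring
      have h4 : gt m i.castSucc.succ ≤ gt m i.castSucc.castSucc := by
        rw [h2, h3]
        gcongr
        linarith
      refine (mul_log_le (gt_pos m _) h4).trans ?_
      have h5 : gt m i.castSucc.castSucc - gt m i.castSucc.succ
          = G * (2 * j + 1) / (m + 1) ^ 2 := by
        rw [h2, h3]
        field_simp
        ring
      have h6 : G * (j / (m + 1)) ^ 2 ≤ gt m i.castSucc.succ := by
        rw [h3]; linarith
      have h7 : 0 < G * (j / (m + 1)) ^ 2 := by positivity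
      rw [h5]
      calc (G * (2 * j + 1) / (m + 1) ^ 2) ^ 2 / gt m i.castSucc.succ
          ≤ (G * (2 * j + 1) / (m + 1) ^ 2) ^ 2 / (G * (j / (m + 1)) ^ 2) :=
            div_le_div_of_nonneg_left (by positivity) h7 h6
        _ = G * (2 * j + 1) ^ 2 / ((m + 1) ^ 2 * j ^ 2) := by
            field_simp
        _ ≤ G * (9 * j ^ 2) / ((m + 1) ^ 2 * j ^ 2) := by
            refine div_le_div_of_nonneg_right ?_ (by positivity)
            refine mul_le_mul_of_nonneg_left ?_ hG0.le
            nlinarith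
        _ = 9 * G / (m + 1) ^ 2 := by
            field_simp
    have h2 : (gt m (Fin.last m).castSucc - gt m (Fin.last m).succ) *
        (Real.log (gt m (Fin.last m).castSucc) - Real.log (gt m (Fin.last m).succ))
        ≤ G / (m + 1) := by
      have h3 : gt m (Fin.last m).castSucc = 1 + G * (1 / (m + 1)) ^ 2 := by
        unfold gt
        simp only [Fin.val_castSucc, Fin.val_last]
        congr 4
        ring
      have h4 : gt m (Fin.last m).succ = 1 := by
        unfold gt
        simp
      rw [h3, h4, Real.log_one, sub_zero]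
      have h5 : Real.log (1 + G * (1 / (m + 1)) ^ 2) ≤ m + 1 := by
        rw [Real.log_le_iff_le_exp (by positivity), Real.exp_add]
        have h6 : (1 / ((m : ℝ) + 1)) ^ 2 ≤ 1 := by
          apply pow_le_one₀ (by positivity)
          rw [div_le_one (by positivity)]
          linarith
        have h7 : (2 : ℝ) ≤ Real.exp 1 := by
          have := Real.add_one_le_exp (1 : ℝ)
          linarith
        calc 1 + G * (1 / (m + 1)) ^ 2 ≤ 1 + G * 1 := by gcongr
          _ ≤ G * 2 := by linarith
          _ ≤ G * Real.exp 1 := by gcongr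
      calc (1 + G * (1 / (m + 1)) ^ 2 - 1) * Real.log (1 + G * (1 / (m + 1)) ^ 2)
          ≤ (1 + G * (1 / (m + 1)) ^ 2 - 1) * (m + 1) :=
            mul_le_mul_of_nonneg_left h5 (by
              have : 0 ≤ G * (1 / ((m : ℝ) + 1)) ^ 2 := by positivity
              linarith)
        _ = G / (m + 1) := by
            field_simp
            ring
    calc _ ≤ ∑ i : Fin m, 9 * G / (m + 1) ^ 2 + G / (m + 1) :=
          add_le_add (Finset.sum_le_sum fun i _ => h1 i) h2
      _ = m * (9 * G / (m + 1) ^ 2) + G / (m + 1) := by simp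
      _ ≤ 10 * G / (m + 1) := by
          have h3 : m * (9 * G / (m + 1) ^ 2) ≤ 9 * G / (m + 1) := by
            rw [mul_div_assoc', div_le_div_iff₀ (by positivity) (by positivity)]
            nlinarith [mul_pos hm0 hG0, mul_pos (mul_pos hm0 hm0) hG0]
          have h4 : 10 * G / ((m : ℝ) + 1) = 9 * G / (m + 1) + G / (m + 1) := by ring
          linarith
  calc _ ≤ am m / (2 * m) * (10 * G / (m + 1)) := mul_le_mul_of_nonneg_left hsum (by positivity)
    _ = am m * G * (5 / (m * (m + 1))) := by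
        field_simp
        norm_num
    _ = 5 / (m * (m + 1)) := by rw [haG, one_mul]

lemma gt_ent {m : ℕ} (hm : 12 ≤ m) : (m : ℝ) / 2 ≤ ent (wt m) (gt m) := by
  have hm8 : 8 ≤ m := by omega
  have hm1 : (12 : ℝ) ≤ m := by exact_mod_cast hm
  have hm0 : (0 : ℝ) < m := by linarith
  have ha := am_pos m
  set G := Real.exp (m : ℝ) with hG
  have hG0 : 0 < G := Real.exp_pos _
  have hG1 : 1 ≤ G := Real.one_le_exp hm0.le
  have haG : am m * G = 1 := am_mul m
  set M := ∑ x, wt m x * gt m x with hM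
  have hM1 : 1 ≤ M := by
    rw [hM, ← wt_sum hm8]
    refine Finset.sum_le_sum fun x _ => ?_
    have := mul_le_mul_of_nonneg_left (gt_ge m x) (wt_pos hm8 x).le
    linarith
  have hM3 : M ≤ 3 := by
    have h1 : ∀ x : Fin (m + 2), wt m x * gt m x
        ≤ wt m x + G * (wt m x - if x = Fin.last (m + 1) then wt m x else 0) := by
      intro x
      by_cases hx : x = Fin.last (m + 1)
      · rw [if_pos hx, sub_self, mul_zero, add_zero]
        have : gt m x = 1 := by
          rw [hx]
          unfold gt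
          simp
        rw [this, mul_one]
      · rw [if_neg hx, sub_zero]
        have hx2 : (x.val : ℝ) ≤ m + 1 := by
          have := x.2
          exact_mod_cast (by omega : x.val ≤ m + 1)
        have h2 : (((m : ℝ) + 1 - x.val) / (m + 1)) ^ 2 ≤ 1 := by
          apply pow_le_one₀
          · apply div_nonneg <;> linarith
          · rw [div_le_one (by positivity)]
            have : (0 : ℝ) ≤ x.val := Nat.cast_nonneg _
            linarith
        have h3 : gt m x ≤ 1 + G := by
          unfold gt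
          have := mul_le_mul_of_nonneg_left h2 hG0.le
          linarith
        have := mul_le_mul_of_nonneg_left h3 (wt_pos hm8 x).le
        linarith
    have h2 : M ≤ ∑ x : Fin (m + 2),
        (wt m x + G * (wt m x - if x = Fin.last (m + 1) then wt m x else 0)) :=
      Finset.sum_le_sum fun x _ => h1 x
    rw [Finset.sum_add_distrib, ← Finset.mul_sum, Finset.sum_sub_distrib, wt_sum hm8,
      Finset.sum_ite_eq' Finset.univ (Fin.last (m + 1)) (wt m), if_pos (Finset.mem_univ _)] at h2
    have h3 : wt m (Fin.last (m + 1)) = 1 - 2 * am m := by simp [wt]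
    rw [h3] at h2
    have h4 : G * (1 - (1 - 2 * am m)) = 2 * (am m * G) := by ring
    rw [h4, haG] at h2
    linarith
  have h1 : (m : ℝ) ≤ ∑ x, wt m x * (gt m x * Real.log (gt m x)) := by
    have h2 : wt m 0 * (gt m 0 * Real.log (gt m 0))
        ≤ ∑ x, wt m x * (gt m x * Real.log (gt m x)) := by
      refine Finset.single_le_sum (f := fun x => wt m x * (gt m x * Real.log (gt m x)))
        (fun x _ => ?_) (Finset.mem_univ 0)
      exact mul_nonneg (wt_pos hm8 x).le (mul_nonneg (gt_pos m x).le (Real.log_nonneg (gt_ge m x)))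
    have h3 : wt m 0 = am m := by simp [wt]
    have h4 : gt m 0 = 1 + G := by
      unfold gt
      have : ((m : ℝ) + 1) ≠ 0 := by positivity
      simp [this, hG]
    have h5 : (m : ℝ) ≤ Real.log (gt m 0) := by
      rw [h4, Real.le_log_iff_exp_le (by positivity)]
      linarith
    have h6 : G ≤ gt m 0 := by rw [h4]; linarith
    calc (m : ℝ) = am m * (G * m) := by rw [← mul_assoc, haG, one_mul]
      _ ≤ wt m 0 * (gt m 0 * Real.log (gt m 0)) := by
          rw [h3]
          refine mul_le_mul_of_nonneg_left ?_ ha.le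
          exact mul_le_mul h6 h5 hm0.le (gt_pos m 0).le
      _ ≤ _ := h2
  have h2 : M * Real.log M ≤ 6 := by
    have h3 : Real.log M ≤ M - 1 := Real.log_le_sub_one_of_pos (by linarith)
    have h4 : 0 ≤ Real.log M := Real.log_nonneg hM1
    nlinarith
  unfold ent
  rw [← hM]
  linarith

lemma gt_ne (m : ℕ) : ∃ x y, gt m x ≠ gt m y := by
  refine ⟨0, Fin.last (m + 1), ?_⟩
  have h1 : gt m (Fin.last (m + 1)) = 1 := by
    unfold gt
    simp
  have h2 : gt m 0 = 1 + Real.exp m := by
    unfold gt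
    have : ((m : ℝ) + 1) ≠ 0 := by positivity
    simp [this]
  rw [h1, h2]
  have := Real.exp_pos (m : ℝ)
  intro h
  linarith

lemma gt_mem (m : ℕ) :
    dirichlet (K m) (wt m) (gt m) (fun x => Real.log (gt m x)) / ent (wt m) (gt m) ∈
      {r | ∃ f : Fin (m + 2) → ℝ, (∃ x y, f x ≠ f y) ∧
        r = dirichlet (K m) (wt m) (fun x => Real.exp (f x)) f
          / ent (wt m) (fun x => Real.exp (f x))} := by
  refine ⟨fun x => Real.log (gt m x), ?_, ?_⟩
  · obtain ⟨x, y, h⟩ := gt_ne m
    exact ⟨x, y, fun h' => h (Real.log_injOn_pos (gt_pos m x) (gt_pos m y) h')⟩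
  · have : (fun x => Real.exp (Real.log (gt m x))) = gt m := by
      funext x
      exact Real.exp_log (gt_pos m x)
    rw [this]

lemma mls_mem {m : ℕ} (hm : 8 ≤ m) : ∀ r ∈ {r | ∃ f : Fin (m + 2) → ℝ, (∃ x y, f x ≠ f y) ∧
        r = dirichlet (K m) (wt m) (fun x => Real.exp (f x)) f
          / ent (wt m) (fun x => Real.exp (f x))},
    am m / (2 * m) * (am m / m) / (m + 1) ≤ r := by
  rintro r ⟨f, ⟨x, y, hxy⟩, rfl⟩
  have h1 : 0 < ent (wt m) (fun x => Real.exp (f x)) :=
    ent_pos hm _ (fun x => Real.exp_pos _) ⟨x, y, fun h => hxy (Real.exp_injective h)⟩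
  rw [le_div_iff₀ h1]
  have h2 := mls_lower hm (fun x => Real.exp (f x)) (fun x => Real.exp_pos _)
  simpa only [Real.log_exp] using h2

lemma mls_pos {m : ℕ} (hm : 8 ≤ m) : 0 < cMLS (K m) (wt m) := by
  have hm1 : (8 : ℝ) ≤ m := by exact_mod_cast hm
  have ha := am_pos m
  have h1 : 0 < am m / (2 * m) * (am m / m) / (m + 1) := by positivity
  exact lt_of_lt_of_le h1 (le_csInf ⟨_, gt_mem m⟩ (mls_mem hm))

lemma mls_le {m : ℕ} (hm : 12 ≤ m) : cMLS (K m) (wt m) ≤ 10 / (m ^ 2 * (m + 1)) := by
  have hm8 : 8 ≤ m := by omega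
  have hm1 : (12 : ℝ) ≤ m := by exact_mod_cast hm
  have h1 : cMLS (K m) (wt m) ≤
      dirichlet (K m) (wt m) (gt m) (fun x => Real.log (gt m x)) / ent (wt m) (gt m) :=
    csInf_le ⟨_, mls_mem hm8⟩ (gt_mem m)
  refine h1.trans ?_
  have h2 := gt_ent hm
  have h3 : 0 < ent (wt m) (gt m) := by linarith
  rw [div_le_iff₀ h3]
  refine (gt_dirichlet hm8).trans ?_
  calc 5 / ((m : ℝ) * (m + 1)) = 10 / (m ^ 2 * (m + 1)) * (m / 2) := by
        field_simp
        norm_num
    _ ≤ _ := mul_le_mul_of_nonneg_left h2 (by positivity)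

/-- The bound on the hitting time of the last state. -/
noncomputable def Hm (m : ℕ) : ℝ := 3 * m * (m + 1)

/-- The Lyapunov function. -/
noncomputable def wf (m : ℕ) (i : Fin (m + 2)) : ℝ :=
  2 - (i.val : ℝ) * (2 * m - 1 + i.val) / Hm m

lemma Hm_pos {m : ℕ} (hm : 8 ≤ m) : 0 < Hm m := by
  have hm1 : (8 : ℝ) ≤ m := by exact_mod_cast hm
  unfold Hm
  positivity

lemma Hm_ge {m : ℕ} (hm : 8 ≤ m) : 1 ≤ Hm m := by
  have hm1 : (8 : ℝ) ≤ m := by exact_mod_cast hm
  unfold Hm
  nlinarith

lemma wf_bd {m : ℕ} (hm : 8 ≤ m) (i : Fin (m + 2)) : 1 ≤ wf m i ∧ wf m i ≤ 2 := by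
  have hm1 : (8 : ℝ) ≤ m := by exact_mod_cast hm
  have hH := Hm_pos hm
  have h0 : (0 : ℝ) ≤ i.val := Nat.cast_nonneg _
  have hi : (i.val : ℝ) ≤ m + 1 := by
    have := i.2
    exact_mod_cast (by omega : i.val ≤ m + 1)
  unfold wf
  constructor
  · have : (i.val : ℝ) * (2 * m - 1 + i.val) / Hm m ≤ 1 := by
      rw [div_le_one hH]
      unfold Hm
      nlinarith
    linarith
  · have : 0 ≤ (i.val : ℝ) * (2 * m - 1 + i.val) / Hm m := by
      apply div_nonneg _ hH.le
      apply mul_nonneg h0
      linarith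
    linarith

lemma K_wf {m : ℕ} (hm : 8 ≤ m) (i : Fin (m + 2)) (hi : i ≠ Fin.last (m + 1)) :
    ∑ j, K m i j * wf m j = wf m i - 1 / Hm m := by
  have hm1 : (8 : ℝ) ≤ m := by exact_mod_cast hm
  have hm0 : (m : ℝ) ≠ 0 := by linarith
  have hH := Hm_pos hm
  have ha := am_pos m
  have hi' : i.val < m + 1 := by
    have h1 := i.2
    have h2 : i.val ≠ m + 1 := fun h => hi (Fin.ext h)
    omega
  rw [sum_K_mul]
  simp only [cd_mul, Finset.sum_add_distrib, ← Finset.mul_sum]
  rw [sum_fin_ite, dif_pos (by omega)]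
  have h1 : wf m ⟨i.val + 1, by omega⟩ - wf m i = - (2 * m + 2 * i.val) / Hm m := by
    unfold wf
    simp only
    push_cast
    field_simp
    ring
  rw [h1]
  by_cases h0 : i.val = 0
  · have h2 : ∑ j : Fin (m + 2), (if j.val + 1 = i.val then wf m j - wf m i else 0) = 0 := by
      apply Finset.sum_eq_zero
      intro j _
      rw [if_neg]
      omega
    have h3 : wt m i = am m := by simp [wt, h0]
    rw [h2, h3, h0]
    field_simp
    simp
    ring
  · have h2 : ∑ j : Fin (m + 2), (if j.val + 1 = i.val then wf m j - wf m i else 0)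
        = (2 * m + 2 * (i.val - 1)) / Hm m := by
      have h3 : ∑ j : Fin (m + 2), (if j.val + 1 = i.val then wf m j - wf m i else 0)
          = ∑ j : Fin (m + 2), (if i.val - 1 = j.val then wf m j - wf m i else 0) := by
        refine Finset.sum_congr rfl fun j _ => ?_
        congr 1
        exact propext ⟨fun h => by omega, fun h => by omega⟩
      rw [h3, sum_fin_ite, dif_pos (by omega)]
      unfold wf
      have h4 : ((i.val - 1 : ℕ) : ℝ) = (i.val : ℝ) - 1 := by
        rw [Nat.cast_sub (by omega)]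
        simp
      simp only [h4]
      field_simp
      ring
    have h3 : wt m i = am m / m := by
      have : i.val ≠ m + 1 := by omega
      simp [wt, h0, this]
    rw [h2, h3]
    field_simp
    ring

lemma last_not_mem {m : ℕ} (hm : 8 ≤ m) {A : Finset (Fin (m + 2))}
    (hA : ∑ y ∈ A, wt m y ≤ 1 / 2) : Fin.last (m + 1) ∉ A := by
  intro h
  have h1 : wt m (Fin.last (m + 1)) ≤ ∑ y ∈ A, wt m y :=
    Finset.single_le_sum (f := wt m) (fun y _ => (wt_pos hm y).le) h
  have h2 : wt m (Fin.last (m + 1)) = 1 - 2 * am m := by simp [wt]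
  have h3 := am_le hm
  linarith

lemma stay_nonneg {m : ℕ} (hm : 8 ≤ m) (A : Finset (Fin (m + 2))) (n : ℕ) (x : Fin (m + 2)) :
    0 ≤ stay (K m) A n x := by
  induction n generalizing x with
  | zero => simp only [stay]; split_ifs <;> norm_num
  | succ n ih =>
    simp only [stay]
    split_ifs
    · exact Finset.sum_nonneg fun y _ => mul_nonneg (K_nonneg hm x y) (ih y)
    · exact le_rfl

lemma stay_le {m : ℕ} (hm : 8 ≤ m) {A : Finset (Fin (m + 2))} (hA : Fin.last (m + 1) ∉ A)
    (n : ℕ) (x : Fin (m + 2)) :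
    stay (K m) A n x ≤ (1 - 1 / (2 * Hm m)) ^ n * wf m x := by
  have hH := Hm_pos hm
  have hH1 := Hm_ge hm
  have hq : 0 ≤ 1 - 1 / (2 * Hm m) := by
    have : 1 / (2 * Hm m) ≤ 1 := by
      rw [div_le_one (by positivity)]; linarith
    linarith
  induction n generalizing x with
  | zero =>
    simp only [stay, pow_zero, one_mul]
    have := wf_bd hm x
    split_ifs <;> linarith
  | succ n ih =>
    simp only [stay]
    have hw := wf_bd hm x
    split_ifs with hx
    · have hxl : x ≠ Fin.last (m + 1) := fun h => hA (h ▸ hx)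
      calc ∑ y, K m x y * stay (K m) A n y
          ≤ ∑ y, K m x y * ((1 - 1 / (2 * Hm m)) ^ n * wf m y) :=
            Finset.sum_le_sum fun y _ => mul_le_mul_of_nonneg_left (ih y) (K_nonneg hm x y)
        _ = (1 - 1 / (2 * Hm m)) ^ n * ∑ y, K m x y * wf m y := by
            rw [Finset.mul_sum]
            refine Finset.sum_congr rfl fun y _ => by ring
        _ = (1 - 1 / (2 * Hm m)) ^ n * (wf m x - 1 / Hm m) := by rw [K_wf hm x hxl]
        _ ≤ (1 - 1 / (2 * Hm m)) ^ n * ((1 - 1 / (2 * Hm m)) * wf m x) := by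
            refine mul_le_mul_of_nonneg_left ?_ (pow_nonneg hq n)
            have h1 : wf m x / (2 * Hm m) ≤ 1 / Hm m := by
              rw [div_le_div_iff₀ (by positivity) hH]
              nlinarith
            have h2 : (1 - 1 / (2 * Hm m)) * wf m x = wf m x - wf m x / (2 * Hm m) := by ring
            linarith
        _ = _ := by ring
    · exact mul_nonneg (pow_nonneg hq _) (by linarith)

lemma surv_le {m : ℕ} (hm : 8 ≤ m) {A : Finset (Fin (m + 2))} (hA : Fin.last (m + 1) ∉ A)
    {t : ℝ} (ht : 0 ≤ t) (x : Fin (m + 2)) :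
    Summable (fun n : ℕ => Real.exp (-t) * t ^ n / n.factorial * stay (K m) A n x) ∧
    surv (K m) A t x ≤ 2 * Real.exp (-(t / (2 * Hm m))) := by
  have hH := Hm_pos hm
  have hH1 := Hm_ge hm
  have hq : 0 ≤ 1 - 1 / (2 * Hm m) := by
    have : 1 / (2 * Hm m) ≤ 1 := by
      rw [div_le_one (by positivity)]; linarith
    linarith
  have h1 := (poisson_hasSum t (1 - 1 / (2 * Hm m))).mul_right 2
  have h2 : ∀ n : ℕ, Real.exp (-t) * t ^ n / n.factorial * stay (K m) A n x
      ≤ Real.exp (-t) * t ^ n / n.factorial * (1 - 1 / (2 * Hm m)) ^ n * 2 := by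
    intro n
    rw [mul_assoc]
    refine mul_le_mul_of_nonneg_left ?_ (by positivity)
    refine (stay_le hm hA n x).trans ?_
    exact mul_le_mul_of_nonneg_left (wf_bd hm x).2 (pow_nonneg hq n)
  have h3 : Summable (fun n : ℕ => Real.exp (-t) * t ^ n / n.factorial * stay (K m) A n x) :=
    Summable.of_nonneg_of_le (fun n => mul_nonneg (by positivity) (stay_nonneg hm A n x)) h2
      h1.summable
  refine ⟨h3, ?_⟩
  have h4 : surv (K m) A t x ≤ Real.exp (-(1 - (1 - 1 / (2 * Hm m))) * t) * 2 := by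
    rw [← h1.tsum_eq]
    exact h3.tsum_le_tsum h2 h1.summable
  refine h4.trans (le_of_eq ?_)
  rw [mul_comm]
  congr 2
  ring

lemma log_sum_bd {m : ℕ} (hm : 8 ≤ m) {A : Finset (Fin (m + 2))} (hne : A.Nonempty)
    (hA : ∑ y ∈ A, wt m y ≤ 1 / 2) :
    0 < |Real.log (∑ y ∈ A, wt m y)| ∧ |Real.log (∑ y ∈ A, wt m y)| ≤ 2 * m := by
  have hm1 : (8 : ℝ) ≤ m := by exact_mod_cast hm
  have hm0 : (0 : ℝ) < m := by linarith
  obtain ⟨x, hx⟩ := hne
  have h1 : am m / m ≤ ∑ y ∈ A, wt m y :=
    (wt_ge hm x).trans (Finset.single_le_sum (f := wt m) (fun y _ => (wt_pos hm y).le) hx)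
  have h2 : 0 < ∑ y ∈ A, wt m y := lt_of_lt_of_le (q_pos hm) h1
  have h3 : Real.log (∑ y ∈ A, wt m y) < 0 := Real.log_neg h2 (by linarith)
  rw [abs_of_neg h3]
  refine ⟨by linarith, ?_⟩
  have h4 : Real.log (am m / m) ≤ Real.log (∑ y ∈ A, wt m y) := Real.log_le_log (q_pos hm) h1
  have h5 : Real.log (am m / m) = -m - Real.log m := by
    rw [Real.log_div (am_pos m).ne' hm0.ne']
    unfold am
    rw [Real.log_exp]
  have h6 : Real.log m ≤ m - 1 := Real.log_le_sub_one_of_pos hm0
  linarith

lemma rho_key {m : ℕ} (hm : 8 ≤ m) {Cent : ℝ} (hC : 0 < Cent) (x : Fin (m + 2))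
    (A : Finset (Fin (m + 2))) (hne : A.Nonempty) (hA : ∑ y ∈ A, wt m y ≤ 1 / 2) :
    surv (K m) A (2 * Hm m * Real.log (4 * m / Cent + 3)) x
      ≤ min (Cent / |Real.log (∑ y ∈ A, wt m y)|) (99 / 100) := by
  have hm1 : (8 : ℝ) ≤ m := by exact_mod_cast hm
  have hm0 : (0 : ℝ) < m := by linarith
  have hH := Hm_pos hm
  have h0 : 0 ≤ 4 * m / Cent := by positivity
  have hlog : 0 ≤ Real.log (4 * m / Cent + 3) := Real.log_nonneg (by linarith)
  have h1 := (surv_le hm (last_not_mem hm hA) (t := 2 * Hm m * Real.log (4 * m / Cent + 3))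
    (by positivity) x).2
  have h2 : Real.exp (-(2 * Hm m * Real.log (4 * m / Cent + 3) / (2 * Hm m)))
      = (4 * m / Cent + 3)⁻¹ := by
    rw [mul_div_cancel_left₀ _ (by positivity), Real.exp_neg, Real.exp_log (by positivity)]
  rw [h2] at h1
  refine h1.trans (le_min ?_ ?_)
  · obtain ⟨h3, h4⟩ := log_sum_bd hm hne hA
    have h5 : Cent / (2 * m) ≤ Cent / |Real.log (∑ y ∈ A, wt m y)| :=
      div_le_div_of_nonneg_left hC.le h3 h4
    refine le_trans ?_ h5
    have h6 : (4 * m / Cent + 3)⁻¹ ≤ (4 * m / Cent)⁻¹ := inv_anti₀ (by positivity) (by linarith)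
    calc 2 * (4 * m / Cent + 3)⁻¹ ≤ 2 * (4 * m / Cent)⁻¹ := by linarith
      _ = Cent / (2 * m) := by
        field_simp
        norm_num
  · have h6 : (4 * m / Cent + 3)⁻¹ ≤ (3 : ℝ)⁻¹ := inv_anti₀ (by norm_num) (by linarith)
    linarith

lemma rho_le {m : ℕ} (hm : 8 ≤ m) {Cent : ℝ} (hC : 0 < Cent) :
    rhoEnt Cent (K m) (wt m) ≤ 2 * Hm m * Real.log (4 * m / Cent + 3) ∧
    rhoEntAll Cent (K m) (wt m) ≤ 2 * Hm m * Real.log (4 * m / Cent + 3) := by
  have hm1 : (8 : ℝ) ≤ m := by exact_mod_cast hm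
  have hH := Hm_pos hm
  have h0 : 0 ≤ 4 * m / Cent := by positivity
  have hlog : 0 ≤ Real.log (4 * m / Cent + 3) := Real.log_nonneg (by linarith)
  constructor
  · refine ciSup_le fun x => csInf_le ⟨0, fun t ht => ht.1⟩ ⟨by positivity, ?_⟩
    intro A hne _ hA
    exact rho_key hm hC x A hne hA
  · refine ciSup_le fun x => csInf_le ⟨0, fun t ht => ht.1⟩ ⟨by positivity, ?_⟩
    intro A hne hA
    exact rho_key hm hC x A hne hA

/-- The kernel of the discrete time chain killed outside `A`. -/
noncomputable def kil (m : ℕ) (A : Finset (Fin (m + 2))) :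
    ℕ → Fin (m + 2) → Fin (m + 2) → ℝ
  | 0, x, y => if x ∈ A ∧ x = y then 1 else 0
  | n + 1, x, y => if x ∈ A then ∑ z, K m x z * kil m A n z y else 0

lemma kil_nonneg {m : ℕ} (hm : 8 ≤ m) (A : Finset (Fin (m + 2))) (n : ℕ) (x y : Fin (m + 2)) :
    0 ≤ kil m A n x y := by
  induction n generalizing x with
  | zero => simp only [kil]; split_ifs <;> norm_num
  | succ n ih =>
    simp only [kil]
    split_ifs
    · exact Finset.sum_nonneg fun z _ => mul_nonneg (K_nonneg hm x z) (ih z)
    · exact le_rfl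

lemma kil_sum {m : ℕ} (A : Finset (Fin (m + 2))) (n : ℕ) (x : Fin (m + 2)) :
    ∑ y, kil m A n x y = stay (K m) A n x := by
  induction n generalizing x with
  | zero =>
    simp only [kil, stay]
    by_cases hx : x ∈ A
    · simp [hx]
    · simp [hx]
  | succ n ih =>
    simp only [kil, stay]
    by_cases hx : x ∈ A
    · simp only [hx, if_true]
      rw [Finset.sum_comm]
      refine Finset.sum_congr rfl fun z _ => ?_
      rw [← Finset.mul_sum, ih]
    · simp [hx]

lemma pow_nonneg' {m : ℕ} (hm : 8 ≤ m) (n : ℕ) (x y : Fin (m + 2)) : 0 ≤ (K m ^ n) x y := by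
  induction n generalizing x with
  | zero =>
    rw [pow_zero, Matrix.one_apply]
    split_ifs <;> norm_num
  | succ n ih =>
    rw [pow_succ', Matrix.mul_apply]
    exact Finset.sum_nonneg fun z _ => mul_nonneg (K_nonneg hm x z) (ih z)

lemma pow_sum {m : ℕ} (hm : 8 ≤ m) (n : ℕ) (x : Fin (m + 2)) : ∑ y, (K m ^ n) x y = 1 := by
  induction n generalizing x with
  | zero =>
    simp [Matrix.one_apply]
  | succ n ih =>
    simp only [pow_succ', Matrix.mul_apply]
    rw [Finset.sum_comm]
    simp only [← Finset.mul_sum, ih, mul_one]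
    exact (isRev hm).row_sum x

lemma pow_le_one' {m : ℕ} (hm : 8 ≤ m) (n : ℕ) (x y : Fin (m + 2)) : (K m ^ n) x y ≤ 1 := by
  rw [← pow_sum hm n x]
  exact Finset.single_le_sum (f := fun z => (K m ^ n) x z) (fun z _ => pow_nonneg' hm n x z)
    (Finset.mem_univ y)

lemma pow_rev {m : ℕ} (hm : 8 ≤ m) (n : ℕ) (x y : Fin (m + 2)) :
    wt m x * (K m ^ n) x y = wt m y * (K m ^ n) y x := by
  induction n generalizing x y with
  | zero =>
    by_cases h : x = y
    · subst h; rfl
    · simp [h, Ne.symm h]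
  | succ n ih =>
    rw [pow_succ', Matrix.mul_apply, ← pow_succ', pow_succ, Matrix.mul_apply, Finset.mul_sum,
      Finset.mul_sum]
    refine Finset.sum_congr rfl fun z _ => ?_
    have h1 := (isRev hm).detailed_balance x z
    have h2 := ih z y
    calc wt m x * (K m x z * (K m ^ n) z y) = (wt m x * K m x z) * (K m ^ n) z y := by ring
      _ = K m z x * (wt m z * (K m ^ n) z y) := by rw [h1]; ring
      _ = _ := by rw [h2]; ring

lemma pow_le_kil {m : ℕ} (hm : 8 ≤ m) (n : ℕ) (x y : Fin (m + 2)) :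
    (K m ^ n) x y ≤ kil m (Finset.univ.erase (Fin.last (m + 1))) n x y
      + 1 / (1 - 2 * am m) * wt m y := by
  have ha := am_le hm
  have hc : 0 < 1 - 2 * am m := by linarith
  have hlast : wt m (Fin.last (m + 1)) = 1 - 2 * am m := by simp [wt]
  have hb : ∀ n y, (K m ^ n) (Fin.last (m + 1)) y ≤ 1 / (1 - 2 * am m) * wt m y := by
    intro n y
    have h1 := pow_rev hm n (Fin.last (m + 1)) y
    have h2 := pow_le_one' hm n y (Fin.last (m + 1))
    have h3 := mul_le_mul_of_nonneg_left h2 (wt_pos hm y).le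
    rw [hlast] at h1
    rw [one_div, inv_mul_eq_div, le_div_iff₀ hc]
    linarith
  induction n generalizing x with
  | zero =>
    by_cases hx : x = Fin.last (m + 1)
    · subst hx
      have := hb 0 y
      have h2 := kil_nonneg hm (Finset.univ.erase (Fin.last (m + 1))) 0 (Fin.last (m + 1)) y
      linarith
    · have h3 : 0 ≤ 1 / (1 - 2 * am m) * wt m y := by
        have := wt_pos hm y
        positivity
      have h4 : (K m ^ 0) x y = kil m (Finset.univ.erase (Fin.last (m + 1))) 0 x y := by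
        simp [kil, hx, Matrix.one_apply]
      linarith
  | succ n ih =>
    by_cases hx : x = Fin.last (m + 1)
    · subst hx
      have := hb (n + 1) y
      have h2 := kil_nonneg hm (Finset.univ.erase (Fin.last (m + 1))) (n + 1) (Fin.last (m + 1)) y
      linarith
    · have h5 : kil m (Finset.univ.erase (Fin.last (m + 1))) (n + 1) x y
          = ∑ z, K m x z * kil m (Finset.univ.erase (Fin.last (m + 1))) n z y := by
        simp [kil, hx]
      rw [h5, pow_succ', Matrix.mul_apply]
      calc ∑ z, K m x z * (K m ^ n) z y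
          ≤ ∑ z, K m x z * (kil m (Finset.univ.erase (Fin.last (m + 1))) n z y
              + 1 / (1 - 2 * am m) * wt m y) :=
            Finset.sum_le_sum fun z _ => mul_le_mul_of_nonneg_left (ih z) (K_nonneg hm x z)
        _ = _ := by
            simp only [mul_add, Finset.sum_add_distrib, ← Finset.sum_mul, (isRev hm).row_sum x,
              one_mul]

lemma tau_key {m : ℕ} (hm : 8 ≤ m) (x : Fin (m + 2)) :
    ∑ y, heat (K m) (2 * Hm m * Real.log (32 * m)) x y *
      Real.log (heat (K m) (2 * Hm m * Real.log (32 * m)) x y / wt m y) ≤ 1 / 2 := by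
  have hm1 : (8 : ℝ) ≤ m := by exact_mod_cast hm
  have hm0 : (0 : ℝ) < m := by linarith
  have hH := Hm_pos hm
  have hap := am_pos m
  have ha := am_le hm
  have hlog : 0 ≤ Real.log (32 * m) := Real.log_nonneg (by linarith)
  obtain ⟨t, ht⟩ : ∃ t, t = 2 * Hm m * Real.log (32 * m) := ⟨_, rfl⟩
  have ht0 : 0 ≤ t := by rw [ht]; positivity
  rw [← ht]
  set A : Finset (Fin (m + 2)) := Finset.univ.erase (Fin.last (m + 1)) with hA
  have hAl : Fin.last (m + 1) ∉ A := by simp [hA]
  obtain ⟨hsum, hsurv⟩ := surv_le hm hAl ht0 x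
  set c : ℝ := 1 / (1 - 2 * am m) with hc
  have hc1 : 1 ≤ c := by
    rw [hc, le_div_iff₀ (by linarith)]
    linarith
  have hc2 : c ≤ 10 / 9 := by
    rw [hc, div_le_div_iff₀ (by linarith) (by norm_num)]
    linarith
  have hkl : ∀ n y, kil m A n x y ≤ stay (K m) A n x := by
    intro n y
    rw [← kil_sum]
    exact Finset.single_le_sum (f := fun z => kil m A n x z) (fun z _ => kil_nonneg hm A n x z)
      (Finset.mem_univ y)
  have hks : ∀ y, Summable (fun n : ℕ => Real.exp (-t) * t ^ n / n.factorial * kil m A n x y) := by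
    intro y
    exact Summable.of_nonneg_of_le
      (fun n => mul_nonneg (by positivity) (kil_nonneg hm A n x y))
      (fun n => mul_le_mul_of_nonneg_left (hkl n y) (by positivity)) hsum
  set r : Fin (m + 2) → ℝ :=
    fun y => ∑' n : ℕ, Real.exp (-t) * t ^ n / n.factorial * kil m A n x y with hr
  have hr0 : ∀ y, 0 ≤ r y := fun y =>
    tsum_nonneg fun n => mul_nonneg (by positivity) (kil_nonneg hm A n x y)
  have hrsum : ∑ y, r y = surv (K m) A t x := by
    rw [hr]
    simp only
    rw [← Summable.tsum_finsetSum (fun y _ => hks y)]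
    unfold surv
    congr 1
    funext n
    rw [← Finset.mul_sum, kil_sum]
  have hS : surv (K m) A t x ≤ 1 / (16 * m) := by
    refine hsurv.trans (le_of_eq ?_)
    rw [ht, mul_div_cancel_left₀ _ (by positivity), Real.exp_neg, Real.exp_log (by positivity)]
    field_simp
    norm_num
  have hp0 : ∀ y, 0 ≤ heat (K m) t x y := fun y =>
    (heat_hasSum (K m) t x y).nonneg fun n =>
      mul_nonneg (by positivity) (pow_nonneg' hm n x y)
  have hpr : ∀ y, heat (K m) t x y ≤ r y + c * wt m y := by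
    intro y
    have h1 := heat_hasSum (K m) t x y
    have h2 := (hks y).hasSum.add ((poisson_hasSum t 1).mul_right (c * wt m y))
    have h3 : Real.exp (-(1 - 1) * t) * (c * wt m y) = c * wt m y := by simp
    rw [h3] at h2
    refine hasSum_le (fun n => ?_) h1 h2
    rw [one_pow, mul_one, ← mul_add]
    exact mul_le_mul_of_nonneg_left (pow_le_kil hm n x y) (by positivity)
  have hterm : ∀ y, heat (K m) t x y * Real.log (heat (K m) t x y / wt m y)
      ≤ (3 * m + 1) * r y + c * (c - 1) * wt m y := by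
    intro y
    have hw := wt_pos hm y
    obtain ⟨L, hL⟩ : ∃ L, L = Real.log (c + r y / wt m y) := ⟨_, rfl⟩
    have hrw : 0 ≤ r y / wt m y := div_nonneg (hr0 y) hw.le
    have hL0 : 0 ≤ L := by rw [hL]; exact Real.log_nonneg (by linarith)
    have h1 : heat (K m) t x y * Real.log (heat (K m) t x y / wt m y)
        ≤ heat (K m) t x y * L := by
      rcases (hp0 y).eq_or_lt with h | h
      · rw [← h]; simp
      · refine mul_le_mul_of_nonneg_left ?_ h.le
        rw [hL]
        refine Real.log_le_log (div_pos h hw) ?_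
        rw [div_le_iff₀ hw, add_mul, div_mul_cancel₀ _ hw.ne']
        have := hpr y
        linarith
    have h2 : heat (K m) t x y * L ≤ (r y + c * wt m y) * L :=
      mul_le_mul_of_nonneg_right (hpr y) hL0
    have h3 : L ≤ 3 * m := by
      have h4 : r y ≤ 1 := by
        have h5 : r y ≤ ∑ z, r z :=
          Finset.single_le_sum (f := r) (fun z _ => hr0 z) (Finset.mem_univ y)
        have h6 : 1 / (16 * (m : ℝ)) ≤ 1 := by
          rw [div_le_one (by positivity)]; linarith
        rw [hrsum] at h5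
        linarith
      have h5 : r y / wt m y ≤ 1 / (am m / m) :=
        div_le_div₀ zero_le_one h4 (q_pos hm) (wt_ge hm y)
      have h6 : 1 / (am m / m) = m * Real.exp m := by
        have : Real.exp (m : ℝ) = 1 / am m := by
          rw [eq_div_iff hap.ne', mul_comm]
          exact am_mul m
        rw [this]
        field_simp
      rw [hL, Real.log_le_iff_le_exp (by linarith)]
      have h7 : (m : ℝ) + 1 ≤ Real.exp m := Real.add_one_le_exp _
      have h8 : Real.exp (3 * (m : ℝ)) = Real.exp m * Real.exp m * Real.exp m := by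
        rw [← Real.exp_add, ← Real.exp_add]; congr 1; ring
      rw [h8]
      have h9 : (1 : ℝ) ≤ Real.exp m := Real.one_le_exp hm0.le
      have h10 : (2 : ℝ) ≤ Real.exp m := by linarith
      calc c + r y / wt m y ≤ 2 + m * Real.exp m := by
            rw [h6] at h5
            linarith
        _ ≤ 2 * Real.exp m + m * Real.exp m := by linarith
        _ ≤ Real.exp m * Real.exp m + Real.exp m * Real.exp m := by
            have h11 : (m : ℝ) * Real.exp m ≤ Real.exp m * Real.exp m :=
              mul_le_mul_of_nonneg_right (by linarith) (by linarith)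
            have h12 : 2 * Real.exp (m : ℝ) ≤ Real.exp m * Real.exp m :=
              mul_le_mul_of_nonneg_right h10 (by linarith)
            linarith
        _ = Real.exp m * Real.exp m * 2 := by ring
        _ ≤ Real.exp m * Real.exp m * Real.exp m :=
            mul_le_mul_of_nonneg_left h10 (by positivity)
    have h4 : c * wt m y * L ≤ c * (c - 1) * wt m y + r y := by
      have h5 : L ≤ (c - 1) + r y / (c * wt m y) := by
        have h6 : c + r y / wt m y = c * (1 + r y / (c * wt m y)) := by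
          field_simp
        rw [hL, h6, Real.log_mul (by linarith) (by
          have : 0 ≤ r y / (c * wt m y) := div_nonneg (hr0 y) (by positivity)
          linarith)]
        have h7 : Real.log c ≤ c - 1 := Real.log_le_sub_one_of_pos (by linarith)
        have h8 : Real.log (1 + r y / (c * wt m y)) ≤ 1 + r y / (c * wt m y) - 1 :=
          Real.log_le_sub_one_of_pos (by
            have : 0 ≤ r y / (c * wt m y) := div_nonneg (hr0 y) (by positivity)
            linarith)
        linarith
      calc c * wt m y * L ≤ c * wt m y * ((c - 1) + r y / (c * wt m y)) :=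
            mul_le_mul_of_nonneg_left h5 (by positivity)
        _ = c * (c - 1) * wt m y + r y := by
            have : c * wt m y ≠ 0 := by positivity
            field_simp
    have h5 : r y * L ≤ r y * (3 * m) := mul_le_mul_of_nonneg_left h3 (hr0 y)
    calc _ ≤ (r y + c * wt m y) * L := h1.trans h2
      _ = r y * L + c * wt m y * L := by ring
      _ ≤ _ := by linarith
  calc _ ≤ ∑ y, ((3 * m + 1) * r y + c * (c - 1) * wt m y) :=
        Finset.sum_le_sum fun y _ => hterm y
    _ = (3 * m + 1) * surv (K m) A t x + c * (c - 1) := by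
        rw [Finset.sum_add_distrib, ← Finset.mul_sum, ← Finset.mul_sum, hrsum, wt_sum hm, mul_one]
    _ ≤ (3 * m + 1) * (1 / (16 * m)) + 10 / 9 * (10 / 9 - 1) := by
        gcongr
    _ ≤ 1 / 2 := by
        have h1 : (3 * (m : ℝ) + 1) * (1 / (16 * m)) ≤ 1 / 4 := by
          rw [mul_one_div, div_le_div_iff₀ (by positivity) (by norm_num)]
          linarith
        linarith

lemma tau_le {m : ℕ} (hm : 8 ≤ m) :
    tauEnt (K m) (wt m) ≤ 2 * Hm m * Real.log (32 * m) := by
  have hm1 : (8 : ℝ) ≤ m := by exact_mod_cast hm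
  have hH := Hm_pos hm
  have hlog : 0 ≤ Real.log (32 * m) := Real.log_nonneg (by linarith)
  exact ciSup_le fun x => csInf_le ⟨0, fun t ht => ht.1⟩ ⟨by positivity, tau_key hm x⟩

end Chain

/-- Every constant is eventually beaten. -/
lemma log_small (C D : ℝ) (hC : 0 ≤ C) (hD : 1 ≤ D) (m : ℕ)
    (hm : 12 ≤ m) (h : (120 * C) ^ 2 * D < m) :
    C * (2 * Hm m * Real.log (D * m)) < m ^ 2 * (m + 1) / 10 := by
  have hm1 : (12 : ℝ) ≤ m := by exact_mod_cast hm
  have hm0 : (0 : ℝ) < m := by linarith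
  have hDm : 0 < D * m := by positivity
  have h1 : Real.log (D * m) ≤ 2 * Real.sqrt (D * m) := by
    have h2 : Real.log (Real.sqrt (D * m)) ≤ Real.sqrt (D * m) - 1 :=
      Real.log_le_sub_one_of_pos (Real.sqrt_pos.2 hDm)
    rw [Real.log_sqrt hDm.le] at h2
    linarith
  have h2 : 120 * C * Real.sqrt (D * m) < m := by
    have h3 : (120 * C * Real.sqrt (D * m)) ^ 2 < (m : ℝ) ^ 2 := by
      rw [mul_pow, Real.sq_sqrt hDm.le]
      calc (120 * C) ^ 2 * (D * (m : ℝ)) = (120 * C) ^ 2 * D * (m : ℝ) := by ring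
        _ < (m : ℝ) * (m : ℝ) := mul_lt_mul_of_pos_right h hm0
        _ = (m : ℝ) ^ 2 := by ring
    exact lt_of_pow_lt_pow_left₀ 2 hm0.le h3
  have hH : 0 < Hm m := Hm_pos (by omega)
  calc C * (2 * Hm m * Real.log (D * m)) ≤ C * (2 * Hm m * (2 * Real.sqrt (D * m))) := by
        gcongr
    _ = (120 * C * Real.sqrt (D * m)) * (m * (m + 1)) / 10 := by
        unfold Hm
        ring
    _ < m * (m * (m + 1)) / 10 := by
        have : (0 : ℝ) < m * (m + 1) := by positivity
        have := mul_lt_mul_of_pos_right h2 this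
        linarith
    _ = _ := by ring

/-- For every `Cent > 0` and every `C` some finite irreducible reversible chain has
`1 / c_MLS > C * rho_ent` (with the constant `Cent` in the definition of `rho_ent`), and also
`1 / c_MLS > C * tau_ent`. -/
theorem result :
    ∀ Cent : ℝ, 0 < Cent → ∀ C : ℝ,
      ∃ (n : ℕ) (P : Matrix (Fin n) (Fin n) ℝ) (π : Fin n → ℝ),
        IsReversibleChain P π ∧ 0 < cMLS P π ∧
        C * rhoEnt Cent P π < 1 / cMLS P π ∧
        C * rhoEntAll Cent P π < 1 / cMLS P π ∧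
        C * tauEnt P π < 1 / cMLS P π := by
  intro Cent hCent C0
  -- enlarge the constant
  obtain ⟨C, hC⟩ : ∃ C, C = |C0| := ⟨_, rfl⟩
  have hC0 : 0 ≤ C := hC ▸ abs_nonneg _
  have hCC : C0 ≤ C := hC ▸ le_abs_self _
  obtain ⟨D, hD⟩ : ∃ D : ℝ, D = 4 / Cent + 32 := ⟨_, rfl⟩
  have hD4 : 0 < 4 / Cent := by positivity
  obtain ⟨m, hm⟩ := exists_nat_gt ((120 * C) ^ 2 * D + 12)
  have hD1 : 1 ≤ D := by rw [hD]; linarith
  have hq : 0 ≤ (120 * C) ^ 2 * D := by positivity
  have hm12 : 12 ≤ m := by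
    have : (12 : ℝ) < m := by linarith
    exact_mod_cast this.le
  have hm1 : (12 : ℝ) ≤ m := by exact_mod_cast hm12
  have hm8 : 8 ≤ m := by omega
  have hH := Hm_pos hm8
  have hlt : (120 * C) ^ 2 * D < m := by linarith
  have hsmall := log_small C D hC0 hD1 m hm12 hlt
  have hpos := mls_pos hm8
  have hinv : (m : ℝ) ^ 2 * (m + 1) / 10 ≤ 1 / cMLS (K m) (wt m) := by
    rw [le_div_iff₀ hpos]
    calc (m : ℝ) ^ 2 * (m + 1) / 10 * cMLS (K m) (wt m)
        ≤ (m : ℝ) ^ 2 * (m + 1) / 10 * (10 / (m ^ 2 * (m + 1))) :=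
          mul_le_mul_of_nonneg_left (mls_le hm12) (by positivity)
      _ = 1 := by field_simp
  have hl1 : Real.log (4 * m / Cent + 3) ≤ Real.log (D * m) := by
    refine Real.log_le_log (by positivity) ?_
    rw [hD]
    have : (4 / Cent + 32) * (m : ℝ) = 4 * m / Cent + 32 * m := by ring
    rw [this]
    linarith
  have hl2 : Real.log (32 * m) ≤ Real.log (D * m) := by
    refine Real.log_le_log (by positivity) ?_
    rw [hD]
    have : (4 / Cent + 32) * (m : ℝ) = 4 / Cent * m + 32 * m := by ring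
    rw [this]
    have : 0 ≤ 4 / Cent * (m : ℝ) := by positivity
    linarith
  have hstep : ∀ r : ℝ, 0 ≤ r → r ≤ 2 * Hm m * Real.log (D * m) →
      C0 * r < 1 / cMLS (K m) (wt m) := by
    intro r hr0 hr
    calc C0 * r ≤ C * r := mul_le_mul_of_nonneg_right hCC hr0
      _ ≤ C * (2 * Hm m * Real.log (D * m)) := mul_le_mul_of_nonneg_left hr hC0
      _ < m ^ 2 * (m + 1) / 10 := hsmall
      _ ≤ _ := hinv
  obtain ⟨hr1, hr2⟩ := rho_le hm8 hCent
  have hr3 := tau_le hm8
  refine ⟨m + 2, K m, wt m, isRev hm8, hpos, ?_, ?_, ?_⟩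
  · refine hstep _ (Real.iSup_nonneg fun x => Real.sInf_nonneg fun t ht => ht.1) ?_
    exact hr1.trans (mul_le_mul_of_nonneg_left hl1 (by positivity))
  · refine hstep _ (Real.iSup_nonneg fun x => Real.sInf_nonneg fun t ht => ht.1) ?_
    exact hr2.trans (mul_le_mul_of_nonneg_left hl1 (by positivity))
  · refine hstep _ (Real.iSup_nonneg fun x => Real.sInf_nonneg fun t ht => ht.1) ?_
    exact hr3.trans (mul_le_mul_of_nonneg_left hl2 (by positivity))

end Pool.Agent.Results.MP_bada7b_pr.NoMLSHittingBound
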